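import Pool.Agent.MP_4c107d_co.Mg.H78_Main

set_option autoImplicit false

namespace Pool.Agent.Results.MP_4c107d_co.Linear

open Pool.Agent.MP_4c107d_co

/-- `f(n) ≤ C n` for an absolute constant `C`. -/
theorem result : ∃ C : ℕ, ∀ n k : ℕ, 1 ≤ n → C * n ≤ k → P n k :=
  H78.linear

end Pool.Agent.Results.MP_4c107d_co.Linear
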