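import Pool.Agent.MP_4c107d_co.Mg.Lower

set_option autoImplicit false

namespace Pool.Agent.Results.MP_4c107d_co.LowerBound

open Pool.Agent.MP_4c107d_co

/-- `P(n,k)` fails for every `k` with `1 ≤ k ≤ 2n - 3`; hence `f(n) ≥ 2n - 2`. -/
theorem result (n k : ℕ) (hk : 1 ≤ k) (h : k + 3 ≤ 2 * n) : ¬ P n k :=
  not_P hk h

end Pool.Agent.Results.MP_4c107d_co.LowerBound
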